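import Mathlib
import Pool.Agent.Helper18.SG.Goals

/-!
# Project SG, packet V

Hermite interpolation with gaps at the nodes `1, 2, 3, …` (rule of Descartes).
-/

set_option autoImplicit false

namespace Pool.Agent.Helper83.SG

open Finset Polynomial

/-- The number of sign variations is smaller than the number of nonzero coefficients. -/
lemma sv_lt_card (P : ℝ[X]) (hP : P ≠ 0) : signVariations P + 1 ≤ P.support.card := by
  induction hn : P.support.card using Nat.strong_induction_on generalizing P with
  | _ m ih =>
    have hpos : 1 ≤ P.support.card := by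
      rw [Nat.one_le_iff_ne_zero, Ne, Finset.card_eq_zero, Polynomial.support_eq_empty]
      exact hP
    have hle := signVariations_le_eraseLead_succ (P := P)
    by_cases h0 : P.eraseLead = 0
    · have hmon : P = monomial P.natDegree P.leadingCoeff := by
        conv_lhs => rw [← Polynomial.eraseLead_add_monomial_natDegree_leadingCoeff P]
        rw [h0, zero_add]
      have : signVariations P = 0 := by
        rw [hmon]
        exact signVariations_monomial _ _
      omega
    · have hc : P.eraseLead.support.card = P.support.card - 1 :=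
        Polynomial.card_support_eraseLead' (c := P.support.card - 1) (by omega)
      have := ih (P.eraseLead.support.card) (by omega) P.eraseLead h0 rfl
      omega

lemma sv_pow {η : ℝ} (hη : 0 < η) (m : ℕ) (P : ℝ[X]) (hP : P ≠ 0) :
    signVariations P + m ≤ signVariations ((X - C η) ^ m * P) := by
  induction m with
  | zero => simp
  | succ m ih =>
    have hne : (X - C η) ^ m * P ≠ 0 := mul_ne_zero (pow_ne_zero _ (X_sub_C_ne_zero η)) hP
    have := succ_signVariations_le_X_sub_C_mul hη hne
    have he : (X - C η) ^ (m + 1) * P = (X - C η) * ((X - C η) ^ m * P) := by ring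
    rw [he]
    omega

lemma sv_prod (n : ℕ → ℕ) (N : ℕ) (P : ℝ[X]) (hP : P ≠ 0) :
    signVariations P + ∑ c ∈ range N, n c ≤
      signVariations ((∏ c ∈ range N, (X - C ((c : ℝ) + 1)) ^ n c) * P) := by
  induction N generalizing P with
  | zero => simp
  | succ N ih =>
    rw [sum_range_succ, prod_range_succ, mul_assoc]
    have hpos : (0 : ℝ) < (N : ℝ) + 1 := by positivity
    have hne : (X - C ((N : ℝ) + 1)) ^ n N * P ≠ 0 :=
      mul_ne_zero (pow_ne_zero _ (X_sub_C_ne_zero _)) hP
    have h1 := ih _ hne
    have h2 := sv_pow hpos (n N) P hP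
    omega

/-- The real case. -/
lemma real_case (K : Finset ℕ) (N : ℕ) (n : ℕ → ℕ) (γ : ℕ → ℝ)
    (hn : K.card ≤ ∑ c ∈ range N, n c)
    (h : ∀ c < N, ∀ a < n c, ∑ k ∈ K, γ k * ((k.choose a : ℝ) * ((c : ℝ) + 1) ^ (k - a)) = 0) :
    ∀ k ∈ K, γ k = 0 := by
  set g : ℝ[X] := ∑ k ∈ K, C (γ k) * X ^ k with hg
  have hcoeff : ∀ k, g.coeff k = if k ∈ K then γ k else 0 := by
    intro k
    rw [hg, finsetSum_coeff]
    simp only [coeff_C_mul, coeff_X_pow, mul_ite, mul_one, mul_zero]
    exact Finset.sum_ite_eq K k γ
  have hdvd1 : ∀ c ∈ range N, (X - C ((c : ℝ) + 1)) ^ n c ∣ g := by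
    intro c hc
    rw [mem_range] at hc
    rw [X_sub_C_pow_dvd_iff, X_pow_dvd_iff]
    intro a ha
    have : (g.comp (X + C ((c : ℝ) + 1))).coeff a =
        ∑ k ∈ K, γ k * ((k.choose a : ℝ) * ((c : ℝ) + 1) ^ (k - a)) := by
      rw [hg, Polynomial.sum_comp, finsetSum_coeff]
      apply sum_congr rfl
      intro k _
      rw [mul_comp, C_comp, X_pow_comp, coeff_C_mul, coeff_X_add_C_pow]
      ring
    rw [this]
    exact h c hc a ha
  have hdvd : ∏ c ∈ range N, (X - C ((c : ℝ) + 1)) ^ n c ∣ g := by
    apply Finset.prod_dvd_of_coprime _ hdvd1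
    intro i hi j hj hij
    apply IsCoprime.pow
    apply isCoprime_X_sub_C_of_isUnit_sub
    rw [isUnit_iff_ne_zero, sub_ne_zero]
    intro he
    exact hij (by exact_mod_cast add_right_cancel he)
  have hg0 : g = 0 := by
    by_contra hne
    obtain ⟨q, hq⟩ := hdvd
    have hq0 : q ≠ 0 := by
      rintro rfl
      exact hne (by rw [hq, mul_zero])
    have h1 := sv_prod n N q hq0
    rw [← hq] at h1
    have h2 := sv_lt_card g hne
    have h3 : g.support.card ≤ K.card := by
      apply Finset.card_le_card
      intro k hk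
      rw [mem_support_iff, hcoeff] at hk
      by_contra hkK
      rw [if_neg hkK] at hk
      exact hk rfl
    omega
  intro k hk
  have := hcoeff k
  rw [if_pos hk, hg0, coeff_zero] at this
  exact this.symm

theorem goalV : Pool.Agent.Helper18.SG.GoalV := by
  intro K N n γ hn h
  have hcast : ∀ c k a : ℕ, ((k.choose a : ℂ) * ((c : ℂ) + 1) ^ (k - a)) =
      (((k.choose a : ℝ) * ((c : ℝ) + 1) ^ (k - a) : ℝ) : ℂ) := by
    intro c k a
    push_cast
    rfl
  have hre := real_case K N n (fun k => (γ k).re) hn (by
    intro c hc a ha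
    have := congrArg Complex.re (h c hc a ha)
    rw [Complex.re_sum, Complex.zero_re] at this
    rw [← this]
    apply sum_congr rfl
    intro k _
    rw [hcast, Complex.re_mul_ofReal])
  have him := real_case K N n (fun k => (γ k).im) hn (by
    intro c hc a ha
    have := congrArg Complex.im (h c hc a ha)
    rw [Complex.im_sum, Complex.zero_im] at this
    rw [← this]
    apply sum_congr rfl
    intro k _
    rw [hcast, Complex.im_mul_ofReal])
  intro k hk
  exact Complex.ext (hre k hk) (him k hk)

end Pool.Agent.Helper83.SG
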